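import Mathlib
import Pool.Agent.MP_eddcad_an.h24.Ends

/-! Restriction of a polynomial map to the generic line. -/

set_option autoImplicit false
set_option linter.unusedSectionVars false

noncomputable section

namespace Pool.Agent.MP_eddcad_an.H52

section Field
open Polynomial

variable {K ι : Type} [Field K]

theorem all_of_divX (W : Submodule K K[X]) (cl : ∀ w ∈ W, w.coeff 0 = 0 → w.divX ∈ W)
    (hc : ∀ g, (∀ w ∈ W, g ∣ w) → IsUnit g) (k : ℕ) {p : K[X]} (hp : p ∈ W) (h1 : p.natDegree ≤ k)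
    (h2 : p.coeff k ≠ 0) : ∀ l ≤ k, X ^ l ∈ W := by
  classical
  have hlt : ∀ u : K[X], u.divX ≠ 0 → u.divX.natDegree < u.natDegree := fun u hu => by
    rw [natDegree_divX_eq_natDegree_tsub_one]
    refine Nat.sub_one_lt fun h => hu ?_
    rw [eq_C_of_natDegree_eq_zero h, divX_C]
  have hex : ∃ e, ∃ w ∈ W, w ≠ 0 ∧ w.natDegree = e := ⟨_, p, hp, fun h => h2 (by simp [h]), rfl⟩
  obtain ⟨w0, m0, n0, d0⟩ := Nat.find_spec hex
  have hmin : ∀ w ∈ W, w ≠ 0 → w0.natDegree ≤ w.natDegree := fun w a b =>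
    d0 ▸ Nat.find_min' hex ⟨w, a, b, rfl⟩
  have c0 : w0.coeff 0 ≠ 0 := fun h => by
    have a : w0.divX ≠ 0 := fun e => n0 (by rw [divX_eq_zero_iff.1 e, h, C_0])
    exact (hlt _ a).not_ge (hmin _ (cl _ m0 h) a)
  have hd : ∀ e, ∀ w ∈ W, w.natDegree = e → w0 ∣ w := fun e => by
    induction e using Nat.strong_induction_on with
    | _ e ih =>
      intro w hw he
      rcases eq_or_ne w 0 with rfl | hn
      · exact dvd_zero _
      obtain ⟨u, hu⟩ : ∃ u, u = w - (w.coeff 0 / w0.coeff 0) • w0 := ⟨_, rfl⟩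
      have u0 : u.coeff 0 = 0 := by simp [hu, c0]
      have u1 : u.natDegree ≤ e := hu ▸ (natDegree_sub_le _ _).trans
        (max_le he.le ((natDegree_smul_le _ _).trans (he ▸ hmin w hw hn)))
      have u2 : w0 ∣ u.divX := by
        rcases eq_or_ne u.divX 0 with h | h
        · rw [h]; exact dvd_zero _
        · exact ih _ ((hlt u h).trans_le u1) _ (cl u (hu ▸ W.sub_mem hw (W.smul_mem _ m0)) u0) rfl
      rw [← sub_add_cancel w ((w.coeff 0 / w0.coeff 0) • w0), ← hu, ← X_mul_divX_add u, u0, C_0,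
        add_zero, smul_eq_C_mul]
      exact dvd_add (u2.mul_left _) (dvd_mul_left _ _)
  have one : (1 : K[X]) ∈ W := by
    have e := eq_C_of_natDegree_eq_zero (natDegree_eq_zero_of_isUnit (hc w0 fun w hw => hd _ w hw rfl))
    have := W.smul_mem (w0.coeff 0)⁻¹ m0
    rwa [smul_eq_C_mul, e, coeff_C_zero, ← C_mul, inv_mul_cancel₀ c0, C_1] at this
  induction k generalizing p with
  | zero => intro l hl; rw [Nat.le_zero.1 hl, pow_zero]; exact one
  | succ k ih =>
    have a1 : p.divX ∈ W := by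
      have := cl (p - p.coeff 0 • 1) (W.sub_mem hp (W.smul_mem _ one)) (by simp)
      rwa [show (p - p.coeff 0 • 1).divX = p.divX from ext fun n => by simp [coeff_one]] at this
    have a2 := ih a1 (by rw [natDegree_divX_eq_natDegree_tsub_one]; omega) (by rwa [coeff_divX])
    intro l hl
    rcases hl.lt_or_eq with h | rfl
    · exact a2 l (by omega)
    · have e := p.as_sum_range' (k + 2) (by omega)
      rw [Finset.sum_range_succ, ← sub_eq_iff_eq_add', ← smul_X_eq_monomial] at e
      rw [← W.smul_mem_iff h2, ← e]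
      refine W.sub_mem hp (W.sum_mem fun i hi => ?_)
      rw [← smul_X_eq_monomial]
      exact W.smul_mem _ (a2 i (by simpa [Nat.lt_succ_iff] using hi))

theorem dich (G : ι → K[X]) {d : ℕ} (hd : ∀ j, (G j).natDegree ≤ d) (ht : ∃ j, (G j).coeff d ≠ 0)
    (hc : ∀ g, (∀ j, g ∣ G j) → IsUnit g) (j0 : ι) (h0 : (G j0).coeff 0 ≠ 0) :
    (∀ k ≤ d, X ^ k ∈ Submodule.span K (Set.range G)) ∨ ∃ φ : ℕ → K,
      (∀ j, ∑ k ∈ Finset.range (d + 1), φ k * (G j).coeff k = 0) ∧
      ∃ j, (∑ k ∈ Finset.range d, φ k * (G j).coeff (k + 1)) * (G j0).coeff 0 ≠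
        (∑ k ∈ Finset.range d, φ k * (G j0).coeff (k + 1)) * (G j).coeff 0 := by
  rw [or_iff_not_imp_right]
  intro hn
  push Not at hn
  obtain ⟨j1, h1⟩ := ht
  have hm : ∀ j, G j ∈ Submodule.span K (Set.range G) := fun j => Submodule.subset_span ⟨j, rfl⟩
  refine all_of_divX _ (fun w hw w0 => ?_) (fun g hg => hc g fun j => hg _ (hm j)) d (hm j1) (hd j1) h1
  by_contra hx
  obtain ⟨Φ, a1, a2⟩ := Submodule.exists_dual_map_eq_bot_of_notMem hx inferInstance
  have e : ∀ (p : K[X]) (m : ℕ), (∀ k, m ≤ k → p.coeff k = 0) →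
      ∑ k ∈ Finset.range m, Φ (X ^ k) * p.coeff k = Φ p := fun p m hp => by
    have : p = ∑ k ∈ Finset.range m, p.coeff k • X ^ k := ext fun n => by
      by_cases h : n < m
      · simp [coeff_X_pow, h]
      · simp [coeff_X_pow, h, hp n (not_lt.1 h)]
    conv_rhs => rw [this]
    simp [mul_comm]
  have e1 : ∀ j, ∑ k ∈ Finset.range d, Φ (X ^ k) * (G j).coeff (k + 1) = Φ (G j).divX := fun j => by
    simpa only [coeff_divX] using e (G j).divX d fun k hk => by
      rw [coeff_divX]; exact coeff_eq_zero_of_natDegree_lt ((hd j).trans_lt (by omega))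
  have b := hn (fun k => Φ (X ^ k)) fun j => by
    rw [e _ _ fun k hk => coeff_eq_zero_of_natDegree_lt ((hd j).trans_lt (by omega))]
    exact (Submodule.mem_bot K).1 (a2 ▸ Submodule.mem_map_of_mem (hm j))
  simp only [e1] at b
  have b2 : ∀ p ∈ Submodule.span K (Set.range G),
      Φ p.divX * (G j0).coeff 0 = Φ (G j0).divX * p.coeff 0 := fun p hp => by
    induction hp using Submodule.span_induction with
    | mem x hx => obtain ⟨j, rfl⟩ := hx; exact b j
    | zero => simp
    | add x y _ _ hx hy => rw [divX_add, map_add, add_mul, hx, hy, coeff_add, mul_add]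
    | smul a x _ hx =>
      rw [coeff_smul, smul_eq_C_mul a, divX_C_mul, ← smul_eq_C_mul, map_smul, smul_eq_mul,
        smul_eq_mul, mul_assoc, hx, mul_left_comm]
  have := b2 w hw
  rw [w0, mul_zero] at this
  exact mul_ne_zero a1 h0 this

end Field

open MvPolynomial

variable {n : ℕ}

/-- the coordinate ring of the space of parametrized lines -/
abbrev AA (n : ℕ) : Type := MvPolynomial (Fin n ⊕ Fin n) ℂ

/-- restriction to the generic line -/
def LL : MvPolynomial (Fin n) ℂ →ₐ[ℂ] Polynomial (AA n) :=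
  aeval fun i => Polynomial.C (X (.inl i)) + Polynomial.C (X (.inr i)) * Polynomial.X

theorem LL_X (i : Fin n) : LL (X i : MvPolynomial (Fin n) ℂ) =
    Polynomial.C (X (.inl i)) + Polynomial.C (X (.inr i)) * Polynomial.X := aeval_X _ _

theorem LL_eval₂ {B : Type} [CommRing B] [Algebra ℂ B] (x : Fin n ⊕ Fin n → B) (τ : B)
    (g : MvPolynomial (Fin n) ℂ) : (LL g).eval₂ (aeval x : AA n →ₐ[ℂ] B) τ =
      aeval (fun i => x (.inl i) + x (.inr i) * τ) g := by
  induction g using MvPolynomial.induction_on with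
  | C a => simp
  | add p q hp hq => rw [map_add, Polynomial.eval₂_add, hp, hq, map_add]
  | mul_X p i h => rw [map_mul, Polynomial.eval₂_mul, h, LL_X]; simp

theorem LL_eval (a b : Fin n → ℂ) (τ : ℂ) (g : MvPolynomial (Fin n) ℂ) :
    ((LL g).map (eval (Sum.elim a b))).eval τ = eval (a + τ • b) g := by
  rw [Polynomial.eval_map]
  refine (LL_eval₂ (Sum.elim a b) τ g).trans ?_
  rw [aeval_eq_eval]
  congr 2
  funext i
  simp [mul_comm]

theorem natDegree_LL (g : MvPolynomial (Fin n) ℂ) : (LL g).natDegree ≤ g.totalDegree := by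
  have := aeval_natDegree_le (map (algebraMap ℂ (AA n)) g) (m := g.totalDegree) (n := 1)
    (Finset.sup_mono (support_map_subset _ _))
    (fun i => Polynomial.C (X (.inl i)) + Polynomial.C (X (.inr i)) * Polynomial.X)
    fun i => by compute_degree
  rwa [aeval_map_algebraMap, mul_one] at this

theorem top_LL {g : MvPolynomial (Fin n) ℂ} {d : ℕ} (hd : g.totalDegree ≤ d + 1)
    (h : (LL g).coeff (d + 1) = 0) : g.totalDegree ≤ d := by
  have e : homogeneousComponent (d + 1) g = 0 := MvPolynomial.funext fun b => by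
    have : (LL g).map (eval (Sum.elim 0 b)) = ∑ a ∈ Finset.range (d + 1 + 1),
        Polynomial.monomial a (eval b (homogeneousComponent a g)) := Polynomial.funext fun τ => by
      rw [LL_eval, zero_add, H24.eval_smul_sum hd]
      simp [Polynomial.eval_finsetSum, mul_comm]
    have := congrArg (Polynomial.coeff · (d + 1)) this
    simpa [h, Polynomial.coeff_monomial] using this.symm
  rw [← H24.sum_hc hd, Finset.sum_range_succ, e, add_zero]
  exact totalDegree_finsetSum_le fun a ha => (homogeneousComponent_isHomogeneous a g).totalDegree_le.trans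
    (Nat.lt_succ_iff.1 (Finset.mem_range.1 ha))

theorem pd_LL (u : Fin n) (g : MvPolynomial (Fin n) ℂ) : pderiv (.inr u) ((LL g).coeff 0) = 0 ∧
    ∀ k, pderiv (.inr u) ((LL g).coeff (k + 1)) = pderiv (.inl u) ((LL g).coeff k) := by
  induction g using MvPolynomial.induction_on with
  | C a => exact ⟨by simp, fun k => by cases k <;> simp [Polynomial.coeff_C]⟩
  | add p q hp hq => exact ⟨by simp [hp.1, hq.1], fun k => by simp [hp.2, hq.2]⟩
  | mul_X p i h =>
    simp only [map_mul, LL_X, mul_add, ← mul_assoc, Polynomial.coeff_add, Polynomial.coeff_mul_C,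
      Polynomial.coeff_mul_X, Polynomial.mul_coeff_zero, Polynomial.coeff_X_zero, mul_zero, add_zero,
      map_add, pderiv_mul, Polynomial.coeff_C_zero]
    refine ⟨by simp [h.1], fun k => ?_⟩
    cases k with
    | zero => simp [h.1, h.2, Pi.single_apply]
    | succ k => simp [h.2, Pi.single_apply]; ring

theorem cop_LL {ι : Type} {F : ι → MvPolynomial (Fin n) ℂ} (hc : ∀ g, (∀ j, g ∣ F j) → IsUnit g)
    {g : Polynomial (AA n)} (h0 : g ≠ 0) (hg : ∀ j, g ∣ LL (F j)) : g.natDegree = 0 := by
  by_contra hn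
  obtain ⟨x, hx⟩ : ∃ x, eval x g.leadingCoeff ≠ 0 := by
    by_contra h
    push Not at h
    exact Polynomial.leadingCoeff_ne_zero.2 h0 (MvPolynomial.funext fun x => by simpa using h x)
  obtain ⟨τ, hτ⟩ := Complex.exists_root (f := g.map (eval x)) (by
    rw [Polynomial.degree_map_eq_of_leadingCoeff_ne_zero _ hx]
    exact Polynomial.natDegree_pos_iff_degree_pos.1 (Nat.pos_of_ne_zero hn))
  let y : Fin n ⊕ Fin n → MvPolynomial (Fin n) ℂ :=
    Sum.elim (fun i => X i - C (x (.inr i) * τ)) fun i => C (x (.inr i))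
  have hu := hc (g.eval₂ (aeval y : AA n →ₐ[ℂ] _) (C τ)) fun j => by
    have := Polynomial.eval₂_dvd (aeval y : AA n →ₐ[ℂ] _).toRingHom (C τ) (hg j)
    refine this.trans (dvd_of_eq ((LL_eval₂ y (C τ) (F j)).trans ?_))
    simp [y]
  refine (hu.map (eval fun i => x (.inl i) + x (.inr i) * τ)).ne_zero ?_
  rw [Polynomial.hom_eval₂, eval_C, ← hτ.eq_zero, Polynomial.eval_map]
  congr 1
  refine ringHom_ext (fun a => by simp) fun i => ?_
  cases i <;> simp [y]

theorem generic {ι : Type} [Fintype ι] (F : ι → MvPolynomial (Fin n) ℂ) {d : ℕ}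
    (hd : ∀ j, (F j).totalDegree ≤ d) (ht : ∃ j, (LL (F j)).coeff d ≠ 0)
    (hc : ∀ g, (∀ j, g ∣ F j) → IsUnit g) (j0 : ι) (h0 : (LL (F j0)).coeff 0 ≠ 0) :
    (∃ δ : AA n, δ ≠ 0 ∧ ∀ x, eval x δ ≠ 0 →
      LinearIndependent ℂ fun (k : Fin (d + 1)) j => eval x ((LL (F j)).coeff k)) ∨
    ∃ s : ι → AA n, s ∈ Submodule.span (AA n) (Set.range fun k j => (LL (F j)).coeff k) ∧
      (∀ u, (fun j => pderiv (.inr u) (s j)) ∈
        Submodule.span (AA n) (Set.range fun k j => (LL (F j)).coeff k)) ∧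
      ∃ j, s j * (LL (F j0)).coeff 0 ≠ s j0 * (LL (F j)).coeff 0 := by
  let K := FractionRing (AA n)
  have inj : Function.Injective (algebraMap (AA n) K) := IsFractionRing.injective _ _
  have hz : ∀ j k, d < k → (LL (F j)).coeff k = 0 := fun j k hk =>
    Polynomial.coeff_eq_zero_of_natDegree_lt (((natDegree_LL _).trans (hd j)).trans_lt hk)
  obtain ⟨j1, h1⟩ := ht
  refine (dich (fun j => (LL (F j)).map (algebraMap (AA n) K)) (d := d)
    (fun j => Polynomial.natDegree_map_le.trans ((natDegree_LL _).trans (hd j)))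
    ⟨j1, by rwa [Polynomial.coeff_map, map_ne_zero_iff _ inj]⟩ (fun g hg => ?_) j0
    (by rwa [Polynomial.coeff_map, map_ne_zero_iff _ inj])).imp (fun h => ?_) fun ⟨φ, a1, j, a2⟩ => ?_
  · have g0 : g ≠ 0 := fun e => h0 (by
      have := congrArg (Polynomial.coeff · 0) (zero_dvd_iff.1 (e ▸ hg j0))
      simpa [Polynomial.coeff_map] using this)
    obtain ⟨c, c0, hc'⟩ := IsLocalization.integerNormalization_spec (nonZeroDivisors (AA n)) g
    have := Classical.arbitrary (NormalizedGCDMonoid (AA n))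
    obtain ⟨p, hp⟩ : ∃ p, p = IsLocalization.integerNormalization (nonZeroDivisors (AA n)) g := ⟨_, rfl⟩
    rw [← hp, Algebra.smul_def, Polynomial.algebraMap_apply] at hc'
    have cu : IsUnit (Polynomial.C (algebraMap (AA n) K c)) :=
      Polynomial.isUnit_C.2 (IsUnit.mk0 _ ((map_ne_zero_iff _ inj).2 (nonZeroDivisors.ne_zero c0)))
    have b1 := cop_LL hc p.primPart_ne_zero fun j =>
      p.isPrimitive_primPart.dvd_of_fraction_map_dvd_fraction_map (K := K)
        ((Polynomial.map_dvd _ p.primPart_dvd).trans (hc' ▸ cu.mul_left_dvd.2 (hg j)))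
    rw [Polynomial.natDegree_primPart, ← Polynomial.natDegree_map_eq_of_injective inj, hc',
      Polynomial.natDegree_mul cu.ne_zero g0, Polynomial.natDegree_C, zero_add] at b1
    rw [Polynomial.eq_C_of_natDegree_eq_zero b1] at g0 ⊢
    exact Polynomial.isUnit_C.2 (IsUnit.mk0 _ (Polynomial.C_ne_zero.1 g0))
  · choose c hc using fun k : Fin (d + 1) =>
      (Submodule.mem_span_range_iff_exists_fun K).1 (h k (Nat.lt_succ_iff.1 k.2))
    obtain ⟨δ, hδ⟩ := IsLocalization.exist_integer_multiples_of_finite (nonZeroDivisors (AA n))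
      fun p : Fin (d + 1) × ι => c p.1 p.2
    choose c' hc' using hδ
    refine ⟨δ, nonZeroDivisors.ne_zero δ.2, fun x hx => Fintype.linearIndependent_iff.2 fun b hb k => ?_⟩
    have e : ∀ l : Fin (d + 1), ∑ j, c' (k, j) * (LL (F j)).coeff l = if l = k then δ.1 else 0 :=
      fun l => inj (by
        have := congrArg (fun p => Polynomial.coeff p l) (hc k)
        simp only [Polynomial.finsetSum_coeff, Polynomial.coeff_smul, Polynomial.coeff_map,
          smul_eq_mul, Polynomial.coeff_X_pow, Fin.val_inj] at this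
        simp only [map_sum, map_mul, hc', Algebra.smul_def, mul_assoc, ← Finset.mul_sum, this]
        split_ifs <;> simp)
    have e2 : ∑ j, eval x (c' (k, j)) * ∑ l, b l * eval x ((LL (F j)).coeff (l : Fin (d + 1))) =
        b k * eval x δ.1 := by
      simp only [Finset.mul_sum]
      rw [Finset.sum_comm]
      simp only [mul_left_comm _ (b _), ← Finset.mul_sum, ← map_mul, ← map_sum, e]
      simp [apply_ite]
    rw [Finset.sum_eq_zero fun j _ => by
      rw [show ∑ l, b l * eval x ((LL (F j)).coeff (l : Fin (d + 1))) = 0 by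
        simpa using congrFun hb j, mul_zero]] at e2
    exact (mul_eq_zero.1 e2.symm).resolve_right hx
  · obtain ⟨δ, hδ⟩ := IsLocalization.exist_integer_multiples (nonZeroDivisors (AA n))
      (Finset.range (d + 1)) φ
    choose! ψ hψ using hδ
    have d0 : algebraMap (AA n) K δ ≠ 0 := (map_ne_zero_iff _ inj).2 (nonZeroDivisors.ne_zero δ.2)
    have e : ∀ (m : ℕ) (v : ℕ → AA n), m ≤ d + 1 → algebraMap (AA n) K (∑ k ∈ Finset.range m,
        ψ k * v k) = algebraMap (AA n) K δ * ∑ k ∈ Finset.range m, φ k * algebraMap _ K (v k) :=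
      fun m v hm => by
        rw [map_sum, Finset.mul_sum]
        refine Finset.sum_congr rfl fun k hk => ?_
        rw [map_mul, hψ k (Finset.range_subset_range.2 hm hk), Algebra.smul_def, mul_assoc]
    simp only [Polynomial.coeff_map] at a1 a2
    have hm : ∀ (a : AA n) k, (fun j => a * (LL (F j)).coeff k) ∈
        Submodule.span (AA n) (Set.range fun k j => (LL (F j)).coeff k) := fun a k =>
      Submodule.smul_mem _ a (Submodule.subset_span ⟨k, rfl⟩)
    have hs : ∀ (a : ℕ → AA n) (m i : ℕ), (fun j => ∑ k ∈ Finset.range m, a k * (LL (F j)).coeff (k + i)) ∈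
        Submodule.span (AA n) (Set.range fun k j => (LL (F j)).coeff k) := fun a m i => by
      have := Submodule.sum_mem _ (t := Finset.range m) fun k _ => hm (a k) (k + i)
      rwa [← Finset.sum_fn] 
    refine ⟨fun j => ∑ k ∈ Finset.range d, ψ k * (LL (F j)).coeff (k + 1), hs _ _ _, fun u => ?_, j,
      fun h => a2 (mul_left_cancel₀ d0 ?_)⟩
    · convert Submodule.sub_mem _ (hs (fun k => pderiv (.inr u) (ψ k)) d 1)
        (hs (fun k => pderiv (.inl u) (ψ k)) (d + 1) 0) using 2 with j
      have r : ∑ k ∈ Finset.range (d + 1), ψ k * (LL (F j)).coeff k = 0 :=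
        inj (by rw [e _ _ le_rfl, a1, mul_zero, map_zero])
      have r2 := congrArg (pderiv (.inl u)) r
      rw [map_sum, map_zero] at r2
      simp only [pderiv_mul, Finset.sum_add_distrib] at r2
      rw [Finset.sum_range_succ (fun k => ψ k * _), ← (pd_LL u _).2 d, hz j (d + 1) (by omega),
        map_zero, mul_zero, add_zero] at r2
      simp only [map_sum, pderiv_mul, Finset.sum_add_distrib, (pd_LL u _).2, Pi.sub_apply, add_zero]
      linear_combination r2
    · rw [← mul_assoc, ← mul_assoc, ← e _ _ (Nat.le_succ d), ← e _ _ (Nat.le_succ d), ← map_mul,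
        ← map_mul, h]

end Pool.Agent.MP_eddcad_an.H52

end
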