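import Pool.Agent.MP_eddcad_an.h52.Rank
import Pool.Agent.MP_eddcad_an.h52.Line

/-! The degree bound in a cubic range of target dimensions. -/

set_option autoImplicit false
set_option linter.unusedSectionVars false

noncomputable section

namespace Pool.Agent.MP_eddcad_an.H52

open MvPolynomial Matrix H24
open scoped ComplexOrder

theorem eval_sub {σ τ : Type} (g : τ → MvPolynomial σ ℂ) (Δ : MvPolynomial τ ℂ) (x : σ → ℂ) :
    eval x (aeval g Δ) = eval (fun p => eval x (g p)) Δ := by
  induction Δ using MvPolynomial.induction_on with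
  | C a => simp
  | add p q hp hq => rw [map_add, map_add, hp, hq, map_add]
  | mul_X p i h => rw [map_mul, map_mul, h, map_mul, aeval_X, eval_X]

theorem subst_zero {σ τ : Type} (g : τ → MvPolynomial σ ℂ) (Δ : MvPolynomial τ ℂ) {s : Set ℂ}
    (hs : s.Infinite) (h : ∀ x, (∀ i, x i ∈ s) → eval (fun p => eval x (g p)) Δ = 0) (x : σ → ℂ) :
    eval (fun p => eval x (g p)) Δ = 0 := by
  rw [← eval_sub, funext_set (p := aeval g Δ) (q := 0) (fun _ => s) (fun _ => hs) fun x hx => by
    rw [eval_sub, h x fun i => hx i trivial, map_zero], map_zero]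

/-- the unitary group is Zariski dense -/
theorem exists_unitary {m : Type} [Fintype m] [DecidableEq m] {Δ : MvPolynomial (m × m) ℂ}
    (h : Δ ≠ 0) : ∃ U : Matrix m m ℂ, Uᴴ * U = 1 ∧ eval (fun p => U p.1 p.2) Δ ≠ 0 := by
  by_contra hc
  push Not at hc
  have h1 : ∀ V : Matrix m m ℂ, Vᴴ * V = 1 → ∀ D : m → ℂ,
      eval (fun p => (V * diagonal D * Vᴴ) p.1 p.2) Δ = 0 := fun V hV D => by
    have e : ∀ D : m → ℂ, (fun p : m × m => eval D (∑ l, C (V p.1 l * star (V p.2 l)) * X l :
        MvPolynomial m ℂ)) = fun p => (V * diagonal D * Vᴴ) p.1 p.2 := fun D => funext fun p => by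
      simp only [map_sum, map_mul, eval_C, eval_X, Matrix.mul_apply (M := V * diagonal D),
        mul_diagonal, conjTranspose_apply, mul_right_comm]
    rw [← e]
    refine subst_zero _ Δ (s := Metric.sphere 0 1) ((isConnected_sphere
      (by simp [Complex.rank_real_complex]) 0 zero_le_one).isPreconnected.infinite_of_nontrivial
      ⟨1, by simp, -1, by simp, by norm_num⟩) (fun x hx => ?_) D
    rw [e]
    refine hc _ ?_
    have : (diagonal x)ᴴ * diagonal x = 1 := by
      rw [diagonal_conjTranspose, diagonal_mul_diagonal, ← diagonal_one]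
      congr 1
      funext i
      rw [Pi.star_apply, Complex.star_def, Complex.conj_mul', mem_sphere_zero_iff_norm.1 (hx i)]
      simp
    simp only [conjTranspose_mul, conjTranspose_conjTranspose, Matrix.mul_assoc]
    rw [← Matrix.mul_assoc Vᴴ, hV, Matrix.one_mul, ← Matrix.mul_assoc _ (diagonal x), this,
      Matrix.one_mul, mul_eq_one_comm.1 hV]
  have h2 : ∀ H : Matrix m m ℂ, H.IsHermitian → eval (fun p => H p.1 p.2) Δ = 0 := fun H hH => by
    rw [hH.spectral_theorem, Unitary.conjStarAlgAut_apply]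
    exact h1 _ hH.eigenvectorUnitary.2.1 _
  refine h (MvPolynomial.funext fun x => ?_)
  have e : ∀ t : Unit → ℂ, (fun p : m × m => eval t (C ((x p + star (x p.swap)) / 2) +
      C ((x p - star (x p.swap)) / (2 * Complex.I)) * X () : MvPolynomial Unit ℂ)) = fun p =>
      (x p + star (x p.swap)) / 2 + (x p - star (x p.swap)) / (2 * Complex.I) * t () :=
    fun t => funext fun p => by simp
  have := subst_zero _ Δ (Set.infinite_range_of_injective Complex.ofReal_injective) (fun t ht => by
    obtain ⟨r, hr⟩ := ht ()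
    rw [e, ← hr]
    refine h2 (Matrix.of fun a b => (x (a, b) + star (x (b, a))) / 2 +
      (x (a, b) - star (x (b, a))) / (2 * Complex.I) * r) (Matrix.ext fun a b => ?_)
    simp only [conjTranspose_apply, of_apply, star_add, star_mul', star_div₀, star_sub,
      Complex.star_def, Complex.conj_I, Complex.conj_ofReal, map_ofNat, Complex.conj_conj]
    field_simp
    ring) fun _ => Complex.I
  rw [e] at this
  rw [map_zero, ← this]
  congr 2
  funext p
  field_simp
  ring

theorem coeff_dot {ι : Type} [Fintype ι] (R : ι → Polynomial ℂ) (c : ι → ℂ)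
    (h : ∀ t, (fun j => (R j).eval t) ⬝ᵥ c = 0) (k : ℕ) : (fun j => (R j).coeff k) ⬝ᵥ c = 0 := by
  have : ∑ j, R j * Polynomial.C (c j) = 0 := Polynomial.funext fun t => by
    simpa [Polynomial.eval_finsetSum, dotProduct] using h t
  simpa [dotProduct] using congrArg (Polynomial.coeff · k) this

theorem dot_symm {ι : Type} [Fintype ι] {x y : ι → ℂ} (h : x ⬝ᵥ star y = 0) : y ⬝ᵥ star x = 0 := by
  rw [dotProduct_comm, star_dotProduct, dotProduct_comm, h, star_zero]

theorem span_dot {ι α : Type} [Fintype ι] {a : α → ι → ℂ} {c : ι → ℂ} (h : ∀ k, a k ⬝ᵥ c = 0) :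
    ∀ x ∈ Submodule.span ℂ (Set.range a), x ⬝ᵥ c = 0 := fun x hx => by
  induction hx using Submodule.span_induction with
  | mem x hx => obtain ⟨k, rfl⟩ := hx; exact h k
  | zero => exact zero_dotProduct _
  | add x y _ _ hx hy => rw [add_dotProduct, hx, hy, add_zero]
  | smul r x _ hx => rw [smul_dotProduct, hx, smul_zero]

variable {k N : ℕ}

/-- the tangent vector with coordinates `v` in the frame `U` -/
def pt (U : Matrix (Fin (k + 1)) (Fin (k + 1)) ℂ) (v : Fin k → ℂ) : Fin (k + 1) ⊕ Fin (k + 1) → ℂ :=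
  Sum.elim (fun l => U l 0) fun l => ∑ i, U l i.succ * v i

/-- the reduction modulo the image of the base point -/
def rd (f : Fin N → ℂ) : (Option (Fin N) → ℂ) →ₗ[ℂ] (Fin N → ℂ) where
  toFun u j := u (some j) - u none * f j
  map_add' u w := funext fun j => by simp only [Pi.add_apply]; ring
  map_smul' c u := funext fun j => by simp only [Pi.smul_apply, smul_eq_mul, RingHom.id_apply]; ring

/-- the jets along a tangent line -/
def jt (F : Option (Fin N) → MvPolynomial (Fin (k + 1)) ℂ) (U : Matrix (Fin (k + 1)) (Fin (k + 1)) ℂ)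
    (v : Fin k → ℂ) (l : ℕ) (j : Option (Fin N)) : ℂ := eval (pt U v) ((LL (F j)).coeff l)

theorem jt_zero (F : Option (Fin N) → MvPolynomial (Fin (k + 1)) ℂ) (U : Matrix _ _ ℂ) (v : Fin k → ℂ)
    (j : Option (Fin N)) : jt F U v 0 j = eval (fun l => U l 0) (F j) := by
  rw [jt, ← Polynomial.coeff_map, Polynomial.coeff_zero_eq_eval_zero, pt, LL_eval, zero_smul, add_zero]

theorem orth {F : Option (Fin N) → MvPolynomial (Fin (k + 1)) ℂ} (hR : ∀ z w, z ⬝ᵥ star w = 1 →
      (fun j => eval z (F (some j))) ⬝ᵥ star (fun j => eval w (F (some j))) =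
        eval z (F none) * star (eval w (F none)))
    {U : Matrix (Fin (k + 1)) (Fin (k + 1)) ℂ} (hU : Uᴴ * U = 1) {f : Fin N → ℂ}
    (hq : eval (fun l => U l 0) (F none) ≠ 0)
    (hf : ∀ j, eval (fun l => U l 0) (F (some j)) = eval (fun l => U l 0) (F none) * f j) :
    f ⬝ᵥ star f = 1 ∧
    (∀ v, ∀ x ∈ Submodule.span ℂ (Set.range fun l => rd f (jt F U v l)), x ⬝ᵥ star f = 0) ∧
    ∀ v v', v ⬝ᵥ star v' = 0 → ∀ x ∈ Submodule.span ℂ (Set.range fun l => rd f (jt F U v l)),
      ∀ x' ∈ Submodule.span ℂ (Set.range fun l => rd f (jt F U v' l)), x ⬝ᵥ star x' = 0 := by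
  obtain ⟨z, hz⟩ : ∃ z : (Fin k → ℂ) → Fin (k + 1) → ℂ, ∀ v, z v = U *ᵥ Fin.cons 1 v := ⟨_, fun _ => rfl⟩
  have z0 : z 0 = fun l => U l 0 := funext fun l => by simp [hz, mulVec, dotProduct, Fin.sum_univ_succ]
  have z1 : ∀ v v', v ⬝ᵥ star v' = 0 → z v ⬝ᵥ star (z v') = 1 := fun v v' h => by
    rw [hz, hz, dotProduct_comm, star_mulVec, dotProduct_mulVec, vecMul_vecMul, hU, vecMul_one,
      dotProduct_comm]
    simpa [dotProduct, Fin.sum_univ_succ] using h
  rw [← z0] at hq hf
  have a1 : ∀ v, (fun j => eval (z v) (F (some j))) ⬝ᵥ star f = eval (z v) (F none) := fun v => by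
    have := hR _ _ (z1 v 0 (by simp))
    rw [show (fun j => eval (z 0) (F (some j))) = eval (z 0) (F none) • f from funext hf, star_smul,
      dotProduct_smul, smul_eq_mul, mul_comm] at this
    exact mul_right_cancel₀ (star_ne_zero.2 hq) this
  have a2 : f ⬝ᵥ star f = 1 := by
    have := a1 0
    rw [show (fun j => eval (z 0) (F (some j))) = eval (z 0) (F none) • f from funext hf,
      smul_dotProduct, smul_eq_mul] at this
    exact mul_left_cancel₀ hq (this.trans (mul_one _).symm)
  obtain ⟨R, r1, r2⟩ : ∃ R : (Fin k → ℂ) → Fin N → Polynomial ℂ,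
      (∀ v l, (fun j => (R v j).coeff l) = rd f (jt F U v l)) ∧ ∀ v t, (fun j => (R v j).eval t) =
        (fun j => eval (z (t • v)) (F (some j))) - eval (z (t • v)) (F none) • f := by
    refine ⟨fun v j => (LL (F (some j))).map (eval (pt U v)) -
      (LL (F none)).map (eval (pt U v)) * Polynomial.C (f j), fun v l => funext fun j => by
        simp [rd, jt], fun v t => funext fun j => ?_⟩
    have : ((fun l => U l 0) + t • fun l => ∑ i, U l i.succ * v i) = z (t • v) := funext fun l => by
      simp [hz, mulVec, dotProduct, Fin.sum_univ_succ, Finset.mul_sum, mul_left_comm]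
    simp [pt, LL_eval, this]
  have a3 : ∀ v t, (fun j => (R v j).eval t) ⬝ᵥ star f = 0 := fun v t => by
    rw [r2, sub_dotProduct, smul_dotProduct, a1, a2, smul_eq_mul, mul_one, sub_self]
  refine ⟨a2, fun v => span_dot fun l => r1 v l ▸ coeff_dot _ _ (a3 v) l, fun v v' h x hx x' hx' =>
    span_dot (fun l => r1 v l ▸ coeff_dot _ _ (fun t => dot_symm (span_dot (fun l' => r1 v' l' ▸
      coeff_dot _ _ (fun t' => ?_) l') x' hx')) l) x hx⟩
  rw [r2 v t, star_sub, star_smul, dotProduct_sub, dotProduct_smul, a3, smul_zero, sub_zero, r2,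
    sub_dotProduct, smul_dotProduct, hR _ _ (z1 _ _ (by
      rw [star_smul, smul_dotProduct, dotProduct_smul, dot_symm h, smul_zero, smul_zero])),
    ← a1 (t • v), dotProduct_comm f, star_dotProduct, smul_eq_mul, dotProduct_comm (star f), sub_self]

theorem exists_frame {δ : AA (k + 1)} (h : δ ≠ 0) : ∃ U : Matrix (Fin (k + 1)) (Fin (k + 1)) ℂ,
    Uᴴ * U = 1 ∧ ∀ i, eval (pt U (Pi.single i 1)) δ ≠ 0 := by
  obtain ⟨U, h1, h2⟩ := exists_unitary (Δ := ∏ i : Fin k, rename (Sum.elim (fun l => (l, 0))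
    fun l => (l, i.succ)) δ) (Finset.prod_ne_zero_iff.2 fun i _ => (map_ne_zero_iff _
      (rename_injective _ (by
        rintro (a | a) (b | b) e <;> simp_all [Fin.succ_ne_zero, (Fin.succ_ne_zero _).symm]))).2 h)
  refine ⟨U, h1, fun i => ?_⟩
  rw [map_prod, Finset.prod_ne_zero_iff] at h2
  have := h2 i (Finset.mem_univ i)
  rw [eval_rename] at this
  convert this using 3
  funext l
  cases l <;> simp [pt, Pi.single_apply]

theorem caseA {F : Option (Fin N) → MvPolynomial (Fin (k + 1)) ℂ} {U : Matrix _ _ ℂ} {f : Fin N → ℂ}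
    {d : ℕ} (hq : eval (fun l => U l 0) (F none) ≠ 0)
    (hf : ∀ j, eval (fun l => U l 0) (F (some j)) = eval (fun l => U l 0) (F none) * f j)
    (h1 : f ⬝ᵥ star f = 1)
    (h2 : ∀ v, ∀ x ∈ Submodule.span ℂ (Set.range fun l => rd f (jt F U v l)), x ⬝ᵥ star f = 0)
    (h3 : ∀ v v', v ⬝ᵥ star v' = 0 → ∀ x ∈ Submodule.span ℂ (Set.range fun l => rd f (jt F U v l)),
      ∀ x' ∈ Submodule.span ℂ (Set.range fun l => rd f (jt F U v' l)), x ⬝ᵥ star x' = 0)
    (hi : ∀ i, LinearIndependent ℂ fun l : Fin (d + 1) => jt F U (Pi.single i 1) l) :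
    d * k + 1 ≤ N := by
  have : LinearIndependent ℂ fun o : Option (Fin k × Fin d) =>
      o.elim f fun p => rd f (jt F U (Pi.single p.1 1) p.2.succ) := by
    refine Fintype.linearIndependent_iff.2 fun c hc => ?_
    obtain ⟨w, hw⟩ : ∃ w : Fin k → Fin N → ℂ, ∀ i, w i =
      ∑ l : Fin d, c (some (i, l)) • rd f (jt F U (Pi.single i 1) l.succ) := ⟨_, fun _ => rfl⟩
    have hm : ∀ i, w i ∈ Submodule.span ℂ (Set.range fun l => rd f (jt F U (Pi.single i 1) l)) :=
      fun i => hw i ▸ Submodule.sum_mem _ fun l _ =>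
        Submodule.smul_mem _ _ (Submodule.subset_span ⟨_, rfl⟩)
    simp only [Fintype.sum_option, Fintype.sum_prod_type, Option.elim, ← hw] at hc
    have c0 : c none = 0 := by
      have := congrArg (· ⬝ᵥ star f) hc
      simpa [add_dotProduct, sum_dotProduct, h1, h2 _ _ (hm _)] using this
    rw [c0, zero_smul, zero_add] at hc
    rintro (_ | ⟨i, l⟩)
    · exact c0
    have w0 : w i = 0 := by
      have := congrArg (· ⬝ᵥ star (w i)) hc
      simp only [sum_dotProduct, zero_dotProduct] at this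
      rw [Finset.sum_eq_single i (fun i' _ hi' => h3 _ _ (by simp [hi'.symm]) _ (hm i') _ (hm i))
        (by simp)] at this
      exact dotProduct_self_star_eq_zero.1 this
    obtain ⟨u, hu⟩ : ∃ u, u = ∑ l : Fin d, c (some (i, l)) • jt F U (Pi.single i 1) l.succ := ⟨_, rfl⟩
    have u0 : rd f u = 0 := by rw [← w0, hw, hu, map_sum]; simp only [map_smul]
    refine Fintype.linearIndependent_iff.1 (hi i) (Fin.cons (-(u none / eval (fun l => U l 0) (F none)))
      fun l => c (some (i, l))) ?_ l.succ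
    simp only [Fin.sum_univ_succ, Fin.cons_zero, Fin.cons_succ, ← hu]
    funext j
    simp only [Pi.add_apply, Pi.smul_apply, smul_eq_mul, Fin.val_zero, jt_zero, Pi.zero_apply]
    cases j with
    | none => field_simp; ring
    | some j =>
      rw [hf, sub_eq_zero.1 (show u (some j) - u none * f j = 0 from congrFun u0 j)]
      field_simp
      ring
  have := this.fintype_card_le_finrank
  simpa [mul_comm] using this

theorem caseB [Nontrivial (Fin k)] {F : Option (Fin N) → MvPolynomial (Fin (k + 1)) ℂ}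
    {U : Matrix _ _ ℂ} {f : Fin N → ℂ} (h1 : f ⬝ᵥ star f = 1)
    (h2 : ∀ v, ∀ x ∈ Submodule.span ℂ (Set.range fun l => rd f (jt F U v l)), x ⬝ᵥ star f = 0)
    (h3 : ∀ v v', v ⬝ᵥ star v' = 0 → ∀ x ∈ Submodule.span ℂ (Set.range fun l => rd f (jt F U v l)),
      ∀ x' ∈ Submodule.span ℂ (Set.range fun l => rd f (jt F U v' l)), x ⬝ᵥ star x' = 0)
    {s : Option (Fin N) → AA (k + 1)}
    (s0 : s ∈ Submodule.span (AA (k + 1)) (Set.range fun l j => (LL (F j)).coeff l))
    (s1 : ∀ u, (fun j => pderiv (.inr u) (s j)) ∈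
      Submodule.span (AA (k + 1)) (Set.range fun l j => (LL (F j)).coeff l))
    (s2 : ∃ v, rd f (fun j => eval (pt U v) (s j)) ≠ 0) : (k + 2).choose 3 + 1 ≤ N := by
  obtain ⟨ψ, p1, p2⟩ : ∃ ψ : AA (k + 1) →ₐ[ℂ] MvPolynomial (Fin k) ℂ,
      (∀ l, ψ (X (.inl l)) = C (U l 0)) ∧ ∀ l, ψ (X (.inr l)) = ∑ i, C (U l i.succ) * X i :=
    ⟨aeval (Sum.elim (fun l => C (U l 0)) fun l => ∑ i, C (U l i.succ) * X i),
      fun l => aeval_X _ _, fun l => aeval_X _ _⟩
  have e1 : ∀ v g, eval v (ψ g) = eval (pt U v) g := fun v g => by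
    induction g using MvPolynomial.induction_on with
    | C a => simp
    | add p q hp hq => rw [map_add, map_add, hp, hq, map_add]
    | mul_X p a h => rw [map_mul, map_mul, h, map_mul]; cases a <;> simp [p1, p2, pt]
  have e2 : ∀ i g, pderiv i (ψ g) = ∑ l, C (U l i.succ) * ψ (pderiv (.inr l) g) := fun i g => by
    induction g using MvPolynomial.induction_on with
    | C a => simp
    | add p q hp hq => simp only [map_add, hp, hq, mul_add, Finset.sum_add_distrib]
    | mul_X p a h =>
      simp only [map_mul, pderiv_mul, h, map_add, mul_add, Finset.sum_add_distrib, Finset.sum_mul,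
        mul_assoc]
      congr 1
      cases a <;> simp [p1, p2, Pi.single_apply, apply_ite, mul_comm]
  have hm : ∀ v, ∀ x ∈ Submodule.span (AA (k + 1)) (Set.range fun l j => (LL (F j)).coeff l),
      rd f (fun j => eval (pt U v) (x j)) ∈
        Submodule.span ℂ (Set.range fun l => rd f (jt F U v l)) := fun v x hx => by
    induction hx using Submodule.span_induction with
    | mem x hx => obtain ⟨l, rfl⟩ := hx; exact Submodule.subset_span ⟨l, rfl⟩
    | zero =>
      rw [show (fun j => eval (pt U v) ((0 : Option (Fin N) → AA (k + 1)) j)) = 0 from funext fun _ => map_zero _,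
        map_zero]
      exact Submodule.zero_mem _
    | add x y _ _ hx hy =>
      rw [show (fun j => eval (pt U v) ((x + y) j)) = (fun j => eval (pt U v) (x j)) +
        fun j => eval (pt U v) (y j) from funext fun _ => map_add _ _ _, map_add]
      exact Submodule.add_mem _ hx hy
    | smul r x _ hx =>
      rw [show (fun j => eval (pt U v) ((r • x) j)) = eval (pt U v) r • fun j => eval (pt U v) (x j)
        from funext fun _ => map_mul _ _ _, map_smul]
      exact Submodule.smul_mem _ _ hx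
  have e3 : ∀ v, (fun j => eval v (ψ (s (some j)) - C (f j) * ψ (s none))) =
      rd f fun j => eval (pt U v) (s j) := fun v => funext fun j => by simp [rd, e1, mul_comm]
  simpa using core (fun j => ψ (s (some j)) - C (f j) * ψ (s none))
    (fun v => Submodule.span ℂ (Set.range fun l => rd f (jt F U v l))) (fun v => e3 v ▸ hm v s s0)
    (fun v i => by
      rw [show (fun j => eval v (pderiv i (ψ (s (some j)) - C (f j) * ψ (s none)))) =
        ∑ l, U l i.succ • rd f fun j => eval (pt U v) (pderiv (.inr l) (s j)) from funext fun j => by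
          simp [rd, e1, e2, Finset.mul_sum, mul_sub, mul_comm, mul_left_comm]]
      exact Submodule.sum_mem _ fun l _ => Submodule.smul_mem _ _ (hm v _ (s1 l))) h3
    (f := star f) (fun h => by simp [h] at h1) h2 (s2.imp fun v hv => by rwa [e3])

theorem degree_bound {n d : ℕ} (hn : 3 ≤ n) {f : (Fin n → ℂ) → (Fin N → ℂ)} (hf : IsProperHol f)
    (hd : IsLeast {e : ℕ | RatDegLE f e} d) (hN : N ≤ (n + 1).choose 3) : d * (n - 1) + 1 ≤ N := by
  obtain ⟨k, rfl⟩ : ∃ k, n = k + 2 + 1 := ⟨n - 3, by omega⟩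
  obtain ⟨d, rfl⟩ : ∃ e, d = e + 1 := Nat.exists_eq_succ_of_ne_zero fun h =>
    deg_pos (by omega) hf (h ▸ hd.1)
  obtain ⟨P, q, hP, hq, h⟩ := hd.1
  have hlt : ¬ RatDegLE f d := fun h => Nat.not_succ_le_self d (hd.2 h)
  let F : Option (Fin N) → MvPolynomial (Fin (k + 2 + 1)) ℂ := fun o => o.elim q P
  have hR : ∀ z w, z ⬝ᵥ star w = 1 → (fun j => eval z (F (some j))) ⬝ᵥ
      star (fun j => eval w (F (some j))) = eval z (F none) * star (eval w (F none)) := fun z w e => by
    have := polar hP hq (by omega) (boundary_RR hf h) z (star w)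
    rw [e, sub_self, zero_mul, RR_star] at this
    exact (sub_eq_zero.1 this.symm).symm
  have q0 : (LL (F none)).coeff 0 ≠ 0 := fun e => (h 0 (zero_mem_unitBall _)).1 (by
    have := LL_eval 0 0 0 q
    rw [← Polynomial.coeff_zero_eq_eval_zero, Polynomial.coeff_map, show (LL q).coeff 0 = 0 from e,
      map_zero, smul_zero, add_zero] at this
    exact this.symm)
  have hF : ∀ j, (F j).totalDegree ≤ d + 1 := fun j => by cases j; exacts [hq, hP _]
  have fr : ∀ δ : AA (k + 2 + 1), δ ≠ 0 → ∃ (U : Matrix (Fin (k + 2 + 1)) (Fin (k + 2 + 1)) ℂ)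
      (g : Fin N → ℂ), Uᴴ * U = 1 ∧ eval (fun l => U l 0) (F none) ≠ 0 ∧
      (∀ j, eval (fun l => U l 0) (F (some j)) = eval (fun l => U l 0) (F none) * g j) ∧
      ∀ i, eval (pt U (Pi.single i 1)) δ ≠ 0 := fun δ hδ => by
    obtain ⟨U, a, b⟩ := exists_frame (mul_ne_zero hδ q0)
    simp only [map_mul, mul_ne_zero_iff] at b
    have c : eval (fun l => U l 0) (F none) ≠ 0 := jt_zero F U _ none ▸ (b 0).2
    exact ⟨U, fun j => eval (fun l => U l 0) (F (some j)) / eval (fun l => U l 0) (F none), a, c,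
      fun j => (mul_div_cancel₀ _ c).symm, fun i => (b i).1⟩
  rcases generic F hF (by
      by_contra hc
      push Not at hc
      exact hlt ⟨P, q, fun j => top_LL (hP j) (hc (some j)), top_LL hq (hc none), h⟩)
    (fun g hg => by
      by_contra hu
      choose F' hF' using hg
      have b : ∀ z ∈ unitBall _, eval z g ≠ 0 ∧ eval z (F' none) ≠ 0 := fun z hz => by
        rw [← mul_ne_zero_iff, ← map_mul, ← hF']; exact (h z hz).1
      have g0 : g ≠ 0 := fun e => (b 0 (zero_mem_unitBall _)).1 (by rw [e, map_zero])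
      have g1 : g.totalDegree ≠ 0 := fun e => hu (by
        rw [totalDegree_eq_zero_iff_eq_C.1 e] at g0 ⊢
        exact (IsUnit.mk0 _ fun e => g0 (by rw [e, C_0])).map C)
      have g2 : ∀ j, (F' j).totalDegree ≤ d := fun j => by
        rcases eq_or_ne (F' j) 0 with e | e
        · simp [e]
        · have := hF j
          rw [hF', totalDegree_mul_of_isDomain g0 e] at this
          omega
      refine hlt ⟨fun j => F' (some j), F' none, fun j => g2 _, g2 _, fun z hz =>
        ⟨(b z hz).2, fun j => ?_⟩⟩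
      rw [(h z hz).2, show P j = _ from hF' (some j), show q = _ from hF' none, map_mul, map_mul,
        mul_div_mul_left _ _ (b z hz).1]) none q0 with ⟨δ, hδ, hi⟩ | ⟨s, s0, s1, j, s2⟩
  · obtain ⟨U, g, a1, a2, a3, a4⟩ := fr δ hδ
    obtain ⟨b1, b2, b3⟩ := orth hR a1 a2 a3
    exact caseA a2 a3 b1 b2 b3 fun i => hi _ (a4 i)
  · obtain ⟨U, g, a1, a2, a3, a4⟩ := fr _ (sub_ne_zero.2 s2)
    obtain ⟨b1, b2, b3⟩ := orth hR a1 a2 a3
    refine absurd ((caseB b1 b2 b3 s0 s1 ⟨Pi.single 0 1, fun e => a4 0 ?_⟩).trans hN) (by simp)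
    rw [map_sub, map_mul, map_mul, sub_eq_zero]
    change _ * jt F U _ 0 none = _ * jt F U _ 0 j
    rw [jt_zero, jt_zero]
    cases j with
    | none => rfl
    | some j =>
      rw [a3, sub_eq_zero.1 (show eval _ (s (some j)) - eval _ (s none) * g j = 0 from congrFun e j)]
      ring

end Pool.Agent.MP_eddcad_an.H52

end
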