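import Mathlib

/-! Multiples of powers of the bilinear form have large rank. -/

set_option autoImplicit false
set_option linter.unusedSectionVars false

noncomputable section

namespace Pool.Agent.MP_eddcad_an.H52

open MvPolynomial Module

variable {μ : Type} [Fintype μ] [DecidableEq μ]

/-- the bilinear form -/
def JJ (μ : Type) [Fintype μ] : MvPolynomial (μ ⊕ μ) ℂ := ∑ i, X (.inl i) * X (.inr i)

theorem eval_JJ (x : μ ⊕ μ → ℂ) : eval x (JJ μ) = ∑ i, x (.inl i) * x (.inr i) := by simp [JJ]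

theorem prime_JJ [Nontrivial μ] : Prime (JJ μ) := by
  have h := irreducible_sumSMulXSMulY (Finsupp.equivFunOnFinite.symm fun _ : μ => (1 : ℂ))
    (by
      obtain ⟨a, b, hab⟩ := exists_pair_ne μ
      exact ⟨a, by simp, b, by simp, hab⟩)
    (fun r hr => by
      obtain ⟨a, -, -⟩ := exists_pair_ne μ
      exact isUnit_of_dvd_one (by simpa using hr a))
  rw [sumSMulXSMulY, Finsupp.linearCombination_apply, Finsupp.sum_fintype _ _ (by simp)] at h
  simp only [Finsupp.equivFunOnFinite_symm_apply_apply, one_smul] at h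
  exact h.prime

theorem dvd_of_vanish [Nontrivial μ] {g : MvPolynomial (μ ⊕ μ) ℂ}
    (h : ∀ x, eval x (JJ μ) = 0 → eval x g = 0) : JJ μ ∣ g := by
  have : (Ideal.span {JJ μ}).IsPrime := (Ideal.span_singleton_prime prime_JJ.ne_zero).2 prime_JJ
  rw [← Ideal.mem_span_singleton, ← IsPrime.vanishingIdeal_zeroLocus (K := ℂ) (Ideal.span {JJ μ})]
  exact fun x hx => h x (hx _ (Ideal.mem_span_singleton_self _))

theorem not_dvd_X [Nontrivial μ] (i : μ ⊕ μ) : ¬ JJ μ ∣ X i := by
  rintro ⟨w, hw⟩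
  have := congrArg (eval (Pi.single i (1 : ℂ))) hw
  rw [map_mul, eval_JJ, Finset.sum_eq_zero, zero_mul] at this
  · simp at this
  · intro j _
    cases i <;> simp

theorem pd_inl (i : μ) : pderiv (.inl i) (JJ μ) = X (.inr i) := by
  simp [JJ, Pi.single_apply]

theorem pd_inr (i : μ) : pderiv (.inr i) (JJ μ) = X (.inl i) := by
  simp [JJ, Pi.single_apply]

/-- a sum of products of polynomials in the two groups of variables -/
def bil {κ : Type} [Fintype κ] (A B : κ → MvPolynomial μ ℂ) : MvPolynomial (μ ⊕ μ) ℂ :=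
  ∑ j, rename .inl (A j) * rename .inr (B j)

theorem pd_zero {σ τ : Type} {f : σ → τ} {i : τ} (hi : ∀ a, f a ≠ i) (p : MvPolynomial σ ℂ) :
    pderiv i (rename f p) = 0 := by
  induction p using MvPolynomial.induction_on with
  | C a => simp
  | add p q hp hq => simp [hp, hq]
  | mul_X p a h => simp [h, pderiv_X_of_ne (hi a)]

variable {κ : Type} [Fintype κ]

theorem bil_inl (A B : κ → MvPolynomial μ ℂ) (i : μ) :
    pderiv (.inl i) (bil A B) = bil (fun j => pderiv i (A j)) B := by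
  simp only [bil, map_sum, pderiv_mul, pderiv_rename Sum.inl_injective,
    pd_zero (f := Sum.inr) (i := Sum.inl i) (by simp), mul_zero, add_zero]

theorem bil_inr (A B : κ → MvPolynomial μ ℂ) (i : μ) :
    pderiv (.inr i) (bil A B) = bil A fun j => pderiv i (B j) := by
  simp only [bil, map_sum, pderiv_mul, pderiv_rename Sum.inr_injective,
    pd_zero (f := Sum.inl) (i := Sum.inr i) (by simp), zero_mul, zero_add]

theorem jets {A B : κ → MvPolynomial μ ℂ} {s : ℕ} {g : MvPolynomial (μ ⊕ μ) ℂ}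
    (h : bil A B = JJ μ ^ s * g) (t : Multiset μ) (ht : t.card ≤ s) :
    ∃ (B' : κ → MvPolynomial μ ℂ) (w : MvPolynomial (μ ⊕ μ) ℂ) (c : ℂ), c ≠ 0 ∧ bil A B' =
      JJ μ ^ (s - t.card) * (C c * rename .inl (t.map X).prod * g + JJ μ * w) := by
  induction t using Multiset.induction_on with
  | empty => exact ⟨B, 0, 1, one_ne_zero, by simp [h]⟩
  | cons i t ih =>
    rw [Multiset.card_cons] at ht ⊢
    obtain ⟨B', w, c, hc, e⟩ := ih (by omega)
    obtain ⟨a, ha⟩ : ∃ a, s - t.card = a + 1 := ⟨s - t.card - 1, by omega⟩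
    refine ⟨fun j => pderiv i (B' j), ((a + 1 : ℕ) : MvPolynomial (μ ⊕ μ) ℂ) * X (.inl i) * w +
      pderiv (.inr i) (C c * rename .inl (t.map X).prod * g + JJ μ * w), (a + 1 : ℕ) * c,
      mul_ne_zero (Nat.cast_ne_zero.2 (by omega)) hc, ?_⟩
    rw [← bil_inr, e, ha, pderiv_mul, pderiv_pow, pd_inr, show s - (t.card + 1) = a by omega,
      Multiset.map_cons, Multiset.prod_cons, map_mul, map_mul, rename_X, map_natCast,
      Nat.add_sub_cancel]
    ring

theorem prod_X (t : Multiset μ) :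
    (t.map X).prod = (monomial (Multiset.toFinsupp t) 1 : MvPolynomial μ ℂ) := by
  induction t using Multiset.induction_on with
  | empty => simp
  | cons i t ih =>
    rw [Multiset.map_cons, Multiset.prod_cons, ih, ← Multiset.singleton_add, map_add,
      Multiset.toFinsupp_singleton, X, monomial_mul, one_mul]

theorem exists_ev (x : μ ⊕ μ → ℂ) (i0 : μ) (hx : eval x (JJ μ) = 0) (h0 : x (.inr i0) ≠ 0) :
    ∃ (e : MvPolynomial (μ ⊕ μ) ℂ →ₐ[ℂ] MvPolynomial μ ℂ) (π : MvPolynomial μ ℂ →ₐ[ℂ] MvPolynomial μ ℂ),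
      (∀ p, e (rename .inl p) = p) ∧ (∀ p, ∃ c, e (rename .inr p) = C c) ∧
      (∀ i, i ≠ i0 → π (X i) = X i) ∧ π (e (JJ μ)) = 0 ∧ e (JJ μ) ≠ 0 ∧
      ∀ p, eval (fun i => x (.inl i)) (π (e p)) = eval x p := by
  obtain ⟨e, e1, e2⟩ : ∃ e : MvPolynomial (μ ⊕ μ) ℂ →ₐ[ℂ] MvPolynomial μ ℂ,
      (∀ i, e (X (.inl i)) = X i) ∧ ∀ i, e (X (.inr i)) = C (x (.inr i)) :=
    ⟨aeval (Sum.elim X fun i => C (x (.inr i))), fun i => aeval_X _ _, fun i => aeval_X _ _⟩
  obtain ⟨π, p1, p0⟩ : ∃ π : MvPolynomial μ ℂ →ₐ[ℂ] MvPolynomial μ ℂ, (∀ i, i ≠ i0 → π (X i) = X i) ∧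
      π (X i0) = -(C (x (.inr i0))⁻¹ * ∑ i ∈ Finset.univ.erase i0, X i * C (x (.inr i))) :=
    ⟨aeval (Function.update X i0 _), fun i hi => (aeval_X _ _).trans (Function.update_of_ne hi _ _),
      (aeval_X _ _).trans (Function.update_self _ _ _)⟩
  have e3 : e (JJ μ) = ∑ i, X i * C (x (.inr i)) := by simp only [JJ, map_sum, map_mul, e1, e2]
  refine ⟨e, π, fun p => ?_, fun p => ⟨eval (fun i => x (.inr i)) p, ?_⟩, p1, ?_, fun h => ?_,
    fun p => ?_⟩
  · induction p using MvPolynomial.induction_on with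
    | C a => simp
    | add p q hp hq => rw [map_add, map_add, hp, hq]
    | mul_X p a h => rw [map_mul, map_mul, h, rename_X, e1]
  · induction p using MvPolynomial.induction_on with
    | C a => simp
    | add p q hp hq => rw [map_add, map_add, hp, hq, map_add, map_add]
    | mul_X p a h => rw [map_mul, map_mul, h, rename_X, e2, map_mul, map_mul, eval_X]
  · rw [e3, ← Finset.add_sum_erase _ _ (Finset.mem_univ i0), map_add, map_sum,
      Finset.sum_congr rfl (g := fun i => X i * C (x (.inr i))) fun i hi => by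
        rw [map_mul, p1 i (Finset.ne_of_mem_erase hi), algHom_C, algebraMap_eq],
      map_mul, p0, algHom_C, algebraMap_eq, neg_mul, mul_right_comm, ← map_mul, inv_mul_cancel₀ h0]
    simp
  · have := congrArg (eval (Pi.single i0 (1 : ℂ))) (e3.symm.trans h)
    simp [Pi.single_apply, h0] at this
  · induction p using MvPolynomial.induction_on with
    | C a => simp
    | add p q hp hq => rw [map_add, map_add, map_add, hp, hq, map_add]
    | mul_X p a h =>
      rw [map_mul, map_mul, map_mul, h, map_mul]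
      congr 1
      rcases a with a | a
      · by_cases ha : a = i0
        · subst ha
          rw [eval_JJ, ← Finset.add_sum_erase _ _ (Finset.mem_univ a)] at hx
          simp only [e1, p0, map_neg, map_mul, eval_C, map_sum, eval_X]
          field_simp
          linear_combination -hx
        · rw [e1, p1 a ha, eval_X, eval_X]
      · rw [e2, algHom_C, algebraMap_eq, eval_C, eval_X]

theorem rank_ge [Nontrivial μ] (M : Submodule ℂ (MvPolynomial μ ℂ)) [Module.Finite ℂ M]
    {A B : κ → MvPolynomial μ ℂ} (hA : ∀ j, A j ∈ M) {r : ℕ} (h0 : bil A B ≠ 0)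
    (hr : JJ μ ^ r ∣ bil A B) : (Fintype.card μ + r - 1).choose r ≤ finrank ℂ M := by
  obtain ⟨i0, -, -⟩ := exists_pair_ne μ
  obtain ⟨s, g, hg, h⟩ := WfDvdMonoid.max_power_factor h0 prime_JJ.irreducible
  have hs : r ≤ s := by
    by_contra hc
    refine hg ((mul_dvd_mul_iff_left (pow_ne_zero s prime_JJ.ne_zero)).1 ?_)
    rw [← h, ← pow_succ]
    exact (pow_dvd_pow _ (by omega)).trans hr
  obtain ⟨x, hx, hxg⟩ : ∃ x, eval x (JJ μ) = 0 ∧ eval x (X (.inr i0) * g) ≠ 0 := by
    by_contra hc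
    push Not at hc
    exact (prime_JJ.dvd_or_dvd (dvd_of_vanish hc)).elim (not_dvd_X _) hg
  rw [map_mul, eval_X, mul_ne_zero_iff] at hxg
  obtain ⟨e, π, e1, e2, p1, p2, l0, p3⟩ := exists_ev x i0 hx hxg.1
  have p4 : π (e g) ≠ 0 := fun h => hxg.2 (by rw [← p3, h, map_zero])
  let t : Sym μ r → Multiset μ := fun σ => σ.1.filter (· ≠ i0)
  have tr : ∀ σ, (t σ).card ≤ r := fun σ => (Multiset.card_le_card (Multiset.filter_le _ _)).trans σ.2.le
  have ti : Function.Injective t := fun σ τ h => by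
    have k : ∀ σ : Sym μ r, σ.1 = t σ + Multiset.replicate (r - (t σ).card) i0 := fun σ => by
      have a1 := Multiset.filter_add_not (· ≠ i0) σ.1
      have a2 := congrArg Multiset.card a1
      rw [Multiset.card_add, σ.2] at a2
      conv_lhs => rw [← a1]
      congr 1
      exact Multiset.eq_replicate.2 ⟨by simp only [t]; omega, fun b hb => by
        simpa using (Multiset.mem_filter.1 hb).2⟩
    exact Subtype.ext (by rw [k σ, k τ, h])
  have p5 : ∀ σ, π ((t σ).map X).prod = ((t σ).map X).prod := fun σ => by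
    rw [map_multiset_prod, Multiset.map_map]
    exact congrArg _ (Multiset.map_congr rfl fun i hi => p1 i (Multiset.mem_filter.1 hi).2)
  choose B' w c hc hB using fun σ => jets h (t σ) ((tr σ).trans hs)
  have hM : ∀ σ, e (bil A (B' σ)) ∈ M := fun σ => by
    rw [bil, map_sum]
    refine M.sum_mem fun j _ => ?_
    obtain ⟨c, hc⟩ := e2 (B' σ j)
    rw [map_mul, e1, hc, mul_comm, C_mul']
    exact M.smul_mem _ (hA j)
  rw [← Sym.card_sym_eq_choose]
  refine LinearIndependent.fintype_card_le_finrank (b := fun σ => (⟨_, hM σ⟩ : M))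
    (Fintype.linearIndependent_iff.2 fun b hb => ?_)
  by_contra hn
  obtain ⟨σ₀, h1, h2⟩ := (Finset.univ.filter fun σ => b σ ≠ 0).exists_max_image
    (fun σ => (t σ).card) (by push Not at hn; obtain ⟨σ, hσ⟩ := hn; exact ⟨σ, by simpa using hσ⟩)
  simp only [Finset.mem_filter, Finset.mem_univ, true_and] at h1 h2
  have k1 : e (JJ μ) ^ (s - (t σ₀).card) * ∑ σ, C (b σ) * (e (JJ μ) ^ ((t σ₀).card - (t σ).card) *
      (C (c σ) * ((t σ).map X).prod * e g + e (JJ μ) * e (w σ))) = 0 := by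
    have := congrArg Subtype.val hb
    rw [Submodule.coe_sum, Submodule.coe_zero] at this
    rw [← this, Finset.mul_sum]
    refine Finset.sum_congr rfl fun σ _ => ?_
    by_cases hσ : b σ = 0
    · simp [hσ]
    · have := h2 σ hσ
      have := tr σ₀
      rw [Submodule.coe_smul, ← C_mul', Subtype.coe_mk, hB, mul_left_comm, ← mul_assoc (_ ^ _), ← pow_add,
        show s - (t σ₀).card + ((t σ₀).card - (t σ).card) = s - (t σ).card by omega]
      simp only [map_mul, map_pow, map_add, e1, algHom_C, algebraMap_eq]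
  have k2 := congrArg π ((mul_eq_zero.1 k1).resolve_left (pow_ne_zero _ l0))
  simp only [map_sum, map_mul, map_pow, map_add, p2, p5, zero_mul, add_zero, algHom_C,
    algebraMap_eq, map_zero, ← mul_assoc, ← Finset.sum_mul] at k2
  have k3 := congrArg (coeff (Multiset.toFinsupp (t σ₀))) ((mul_eq_zero.1 k2).resolve_right p4)
  rw [coeff_sum, Finset.sum_eq_single σ₀ (fun σ _ hσ => by
    rw [prod_X, ← C_0, ← map_pow, ← map_mul, ← map_mul, coeff_C_mul, coeff_monomial, if_neg, mul_zero]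
    exact fun h => hσ (ti (Multiset.toFinsupp.injective h))) (by simp)] at k3
  rw [prod_X, Nat.sub_self, pow_zero, mul_one, ← map_mul, coeff_C_mul, coeff_monomial, if_pos rfl,
    mul_one, coeff_zero] at k3
  exact mul_ne_zero h1 (hc σ₀) k3

/-- three vanishing conditions give a triple factor -/
theorem cube_dvd [Nontrivial μ] {G : MvPolynomial (μ ⊕ μ) ℂ} (i : μ) (h0 : JJ μ ∣ G)
    (h1 : JJ μ ∣ pderiv (.inl i) G) (h2 : JJ μ ∣ pderiv (.inr i) (pderiv (.inl i) G)) :
    JJ μ ^ 3 ∣ G := by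
  obtain ⟨g, rfl⟩ := h0
  rw [pderiv_mul, pd_inl, dvd_add_left (dvd_mul_right _ _)] at h1
  obtain ⟨g, rfl⟩ := (prime_JJ.dvd_or_dvd h1).resolve_left (not_dvd_X _)
  have e : pderiv (.inr i) (pderiv (.inl i) (JJ μ * (JJ μ * g))) =
      C 2 * (X (.inl i) * (X (.inr i) * g)) + JJ μ * (2 * g + 2 * X (.inr i) * pderiv (.inr i) g +
        2 * X (.inl i) * pderiv (.inl i) g + JJ μ * pderiv (.inr i) (pderiv (.inl i) g)) := by
    simp only [pderiv_mul, map_add, pd_inl, pd_inr, pderiv_X_self, map_ofNat]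
    ring
  rw [e, dvd_add_left (dvd_mul_right _ _), (IsUnit.map C (by simp : IsUnit (2 : ℂ))).dvd_mul_left] at h2
  obtain ⟨g, rfl⟩ := (prime_JJ.dvd_or_dvd ((prime_JJ.dvd_or_dvd h2).resolve_left
    (not_dvd_X _))).resolve_left (not_dvd_X _)
  exact ⟨g, by ring⟩

theorem eval_bil (A B : κ → MvPolynomial μ ℂ) (x : μ ⊕ μ → ℂ) :
    eval x (bil A fun j => map (starRingEnd ℂ) (B j)) = (fun j => eval (fun i => x (.inl i)) (A j)) ⬝ᵥ
      star fun j => eval (star fun i => x (.inr i)) (B j) := by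
  simp only [bil, map_sum, map_mul, eval_rename, dotProduct, Pi.star_apply]
  refine Finset.sum_congr rfl fun j _ => congrArg _ ?_
  induction B j using MvPolynomial.induction_on with
  | C a => simp
  | add p q hp hq => simp only [map_add, hp, hq, star_add]
  | mul_X p a h => simp [h]

open scoped ComplexOrder in
theorem core [Nontrivial μ] [DecidableEq κ] (S : κ → MvPolynomial μ ℂ) (W : (μ → ℂ) → Set (κ → ℂ))
    (h0 : ∀ v, (fun j => eval v (S j)) ∈ W v)
    (h1 : ∀ v i, (fun j => eval v (pderiv i (S j))) ∈ W v)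
    (ho : ∀ v v', v ⬝ᵥ star v' = 0 → ∀ x ∈ W v, ∀ x' ∈ W v', x ⬝ᵥ star x' = 0)
    {f : κ → ℂ} (hf : f ≠ 0) (hfS : ∀ v, ∀ x ∈ W v, x ⬝ᵥ f = 0)
    (hS : ∃ v, (fun j => eval v (S j)) ≠ 0) :
    (Fintype.card μ + 2).choose 3 + 1 ≤ Fintype.card κ := by
  obtain ⟨i, -, -⟩ := exists_pair_ne μ
  obtain ⟨j0, hj⟩ := Function.ne_iff.1 hf
  have key : ∀ A B : κ → MvPolynomial μ ℂ, (∀ v, (fun j => eval v (A j)) ∈ W v) →
      (∀ v, (fun j => eval v (B j)) ∈ W v) → JJ μ ∣ bil A fun j => map (starRingEnd ℂ) (B j) :=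
    fun A B hA hB => dvd_of_vanish fun x hx => by
      rw [eval_bil]
      exact ho _ _ (by rw [star_star, ← hx, eval_JJ]; rfl) _ (hA _) _ (hB _)
  have h3 := cube_dvd i (key S S h0 h0) (by rw [bil_inl]; exact key _ S (h1 · i) h0) (by
    rw [bil_inl, bil_inr]
    simp only [pderiv_map]
    exact key _ _ (h1 · i) (h1 · i))
  have hz : ∑ j, f j • S j = 0 := MvPolynomial.funext fun v => by
    simpa [dotProduct, mul_comm] using hfS v _ (h0 v)
  have := Module.Finite.span_of_finite ℂ (Set.finite_range fun j : {j // j ≠ j0} => S j)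
  have h4 := rank_ge (Submodule.span ℂ (Set.range fun j : {j // j ≠ j0} => S j)) (fun j => by
    by_cases e : j = j0
    · subst e
      rw [← Finset.add_sum_erase _ _ (Finset.mem_univ j), add_eq_zero_iff_eq_neg] at hz
      rw [← Submodule.smul_mem_iff _ hj, hz]
      exact Submodule.neg_mem _ (Submodule.sum_mem _ fun l hl => Submodule.smul_mem _ _
        (Submodule.subset_span ⟨⟨l, Finset.ne_of_mem_erase hl⟩, rfl⟩))
    · exact Submodule.subset_span ⟨⟨j, e⟩, rfl⟩) (fun h => by
      obtain ⟨v, hv⟩ := hS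
      have := eval_bil S S (Sum.elim v (star v))
      rw [h, map_zero] at this
      refine hv (dotProduct_self_star_eq_zero.1 ?_)
      rw [this]
      simp only [Sum.elim_inl, Sum.elim_inr]
      rw [show (star fun i => star v i) = v from star_star v]) h3
  have h5 := finrank_range_le_card (R := ℂ) fun j : {j // j ≠ j0} => S j
  have h6 : Fintype.card {j // j ≠ j0} + 1 = Fintype.card κ := by
    have := Fintype.card_pos_iff.2 ⟨j0⟩
    simp only [ne_eq, Fintype.card_subtype_compl, Fintype.card_unique]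
    omega
  exact h6 ▸ Nat.succ_le_succ (h4.trans h5)

end Pool.Agent.MP_eddcad_an.H52

end
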